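import Pool.Agent.Y738.PE.Stm3
import Pool.Agent.Y65.PE.Bound

/-! # PE3-E5: unique gapped ground states minimise the energy -/

set_option autoImplicit false

open scoped BigOperators ComplexConjugate Classical Topology

noncomputable section

namespace Pool.Agent.Y44.PE

open Pool.Agent.Y738.PE Pool.Agent.Y65.PE

theorem herm {d q : ℕ} (X : BConf d q → BConf d q → ℝ) (σ τ : BConf d q) :
    conj (hermOf X σ τ) = hermOf X τ σ := by
  unfold hermOf
  simp only [map_add, map_mul, Complex.conj_ofReal, Complex.conj_I]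
  push_cast
  ring

theorem ham_symm {d q L : ℕ} [NeZero L] (hq : q ≤ L) (h : BConf d q → BConf d q → ℂ)
    (hh : ∀ σ τ, conj (h σ τ) = h τ σ) (f g : Conf d L → ℂ) :
    ∑ s, conj (f s) * ham h L g s = conj (∑ s, conj (g s) * ham h L f s) := by
  have e1 : ∀ f g : Conf d L → ℂ, ∑ s, conj (f s) * ham h L g s =
      ∑ v : Site L, ∑ x : Conf d L × BConf d q,
        conj (f x.1) * (h (box q x.1 v) x.2 * g (put x.1 v x.2)) := by
    intro f g
    unfold ham
    simp only [Finset.mul_sum]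
    rw [Finset.sum_comm]
    refine Finset.sum_congr rfl fun v _ => ?_
    rw [Fintype.sum_prod_type]
  rw [e1 f g, e1 g f, map_sum]
  refine Finset.sum_congr rfl fun v _ => ?_
  rw [map_sum]
  refine Fintype.sum_equiv (exch (fun s : Conf d L => box q s v) (fun s τ => put s v τ)
    (fun s σ => box_put hq s v σ) (fun s σ τ => put_put s v σ τ) (fun s => put_box s v)) _ _
    fun x => ?_
  show conj (f x.1) * (h (box q x.1 v) x.2 * g (put x.1 v x.2)) =
    conj (conj (g (put x.1 v x.2)) * (h (box q (put x.1 v x.2) v) (box q x.1 v) *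
      f (put (put x.1 v x.2) v (box q x.1 v))))
  rw [box_put hq, put_put, put_box, map_mul, map_mul, Complex.conj_conj, hh]
  ring

theorem gappedGround : Pool.Agent.Y738.PE.StmGappedGround := by
  intro d q L _ hq X Δ hΔ Ψ hG
  obtain ⟨hn, E, hE, hgap⟩ := hG
  refine ⟨hn, fun φ hφ => ?_⟩
  have hsymm := ham_symm (L := L) hq (hermOf X) (herm X)
  have hPP : ∑ s, conj (Ψ s) * Ψ s = 1 := by
    rw [sum_conj_self, hn, Complex.ofReal_one]
  have hEn : en (hermOf X) L Ψ = E := by
    have h1 : ∑ s, conj (Ψ s) * ham (hermOf X) L Ψ s = (E : ℂ) := by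
      have h2 : ∀ s, conj (Ψ s) * ham (hermOf X) L Ψ s = E * (conj (Ψ s) * Ψ s) := by
        intro s
        rw [hE]
        ring
      rw [Finset.sum_congr rfl fun s _ => h2 s, ← Finset.mul_sum, hPP, mul_one]
    unfold en
    rw [h1, Complex.ofReal_re]
  obtain ⟨a, ha⟩ : ∃ a : ℂ, a = ∑ s, conj (Ψ s) * φ s := ⟨_, rfl⟩
  obtain ⟨ψ, hψ⟩ : ∃ ψ : Conf d L → ℂ, ∀ s, φ s = a * Ψ s + ψ s :=
    ⟨fun s => φ s - a * Ψ s, fun s => by ring⟩
  have horth : ∑ s, conj (Ψ s) * ψ s = 0 := by
    have h1 : ∀ s, conj (Ψ s) * ψ s = conj (Ψ s) * φ s - a * (conj (Ψ s) * Ψ s) := by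
      intro s
      rw [hψ]
      ring
    rw [Finset.sum_congr rfl fun s _ => h1 s, Finset.sum_sub_distrib, ← Finset.mul_sum, hPP, ← ha]
    ring
  have horth' : ∑ s, conj (ψ s) * Ψ s = 0 := by
    have h1 := congrArg conj horth
    rw [map_sum, map_zero] at h1
    rw [← h1]
    refine Finset.sum_congr rfl fun s _ => ?_
    rw [map_mul, Complex.conj_conj, mul_comm]
  have hN : ((nrm φ : ℝ) : ℂ) = conj a * a + ((nrm ψ : ℝ) : ℂ) := by
    rw [← sum_conj_self, ← sum_conj_self]
    have h1 : ∀ s, conj (φ s) * φ s = conj a * a * (conj (Ψ s) * Ψ s) +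
        conj a * (conj (Ψ s) * ψ s) + a * (conj (ψ s) * Ψ s) + conj (ψ s) * ψ s := by
      intro s
      rw [hψ, map_add, map_mul]
      ring
    rw [Finset.sum_congr rfl fun s _ => h1 s, Finset.sum_add_distrib, Finset.sum_add_distrib,
      Finset.sum_add_distrib, ← Finset.mul_sum, ← Finset.mul_sum, ← Finset.mul_sum, hPP, horth,
      horth']
    ring
  have hHφ : ∀ s, ham (hermOf X) L φ s = a * (E * Ψ s) + ham (hermOf X) L ψ s := by
    intro s
    rw [← hE]
    unfold ham
    rw [Finset.mul_sum, ← Finset.sum_add_distrib]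
    refine Finset.sum_congr rfl fun v _ => ?_
    rw [Finset.mul_sum, ← Finset.sum_add_distrib]
    refine Finset.sum_congr rfl fun τ _ => ?_
    rw [hψ]
    ring
  have hcross : ∑ s, conj (Ψ s) * ham (hermOf X) L ψ s = 0 := by
    rw [hsymm]
    have h2 : ∀ s, conj (ψ s) * ham (hermOf X) L Ψ s = E * (conj (ψ s) * Ψ s) := by
      intro s
      rw [hE]
      ring
    rw [Finset.sum_congr rfl fun s _ => h2 s, ← Finset.mul_sum, horth', mul_zero, map_zero]
  have hEφ : ∑ s, conj (φ s) * ham (hermOf X) L φ s =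
      conj a * a * E + ∑ s, conj (ψ s) * ham (hermOf X) L ψ s := by
    have h1 : ∀ s, conj (φ s) * ham (hermOf X) L φ s = conj a * a * E * (conj (Ψ s) * Ψ s) +
        conj a * (conj (Ψ s) * ham (hermOf X) L ψ s) + a * E * (conj (ψ s) * Ψ s) +
        conj (ψ s) * ham (hermOf X) L ψ s := by
      intro s
      rw [hHφ, hψ, map_add, map_mul]
      ring
    rw [Finset.sum_congr rfl fun s _ => h1 s, Finset.sum_add_distrib, Finset.sum_add_distrib,
      Finset.sum_add_distrib, ← Finset.mul_sum, ← Finset.mul_sum, ← Finset.mul_sum, hPP, hcross,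
      horth']
    ring
  have hg := hgap ψ horth
  rw [hEn]
  have hsq : conj a * a = ((Complex.normSq a : ℝ) : ℂ) := (Complex.normSq_eq_conj_mul_self).symm
  have hN' : nrm φ = Complex.normSq a + nrm ψ := by
    rw [hsq] at hN
    exact_mod_cast hN
  have hEφ' : en (hermOf X) L φ = Complex.normSq a * E +
      (∑ s, conj (ψ s) * ham (hermOf X) L ψ s).re := by
    unfold en
    rw [hEφ, hsq, Complex.add_re, ← Complex.ofReal_mul, Complex.ofReal_re]
  rw [hEφ']
  rw [hφ] at hN'
  have hpos := nrm_nonneg ψ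
  have hA : Complex.normSq a = 1 - nrm ψ := by linarith
  rw [hA]
  nlinarith [mul_nonneg hΔ.le hpos]

end Pool.Agent.Y44.PE
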